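import Pool.Agent.R229.FR.Main5

set_option autoImplicit false

/-!
# 5-regular graphs without a `{1,4}`-factor

Let `G` be a finite simple 5-regular graph without a `{1,4}`-factor. Then `G` has three pairwise
disjoint vertex sets of odd size, each joined to its complement by exactly three edges, such that
none of the three induced subgraphs has a `{1,4}`-factor, and every proper subset of odd size of any
of the three sets is joined to its complement by at least five edges.
-/

namespace Pool.Agent.Results.MP_39c6f6_co.ThreeCriticalBadSets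

/-- The number of edges of `G` between `C` and its complement. -/
noncomputable def cut {V : Type} (G : SimpleGraph V) (C : Set V) : ℕ :=
  {p : V × V | p.1 ∈ C ∧ p.2 ∉ C ∧ G.Adj p.1 p.2}.ncard

/-- The subgraph of `G` induced on `C` has a `{1,4}`-factor. -/
def FactorOn {V : Type} (G : SimpleGraph V) (C : Set V) : Prop :=
  ∃ F : SimpleGraph V, F ≤ G ∧ (∀ u v, F.Adj u v → u ∈ C ∧ v ∈ C) ∧
    ∀ v ∈ C, (F.neighborSet v).ncard = 1 ∨ (F.neighborSet v).ncard = 4

theorem result {V : Type} [Fintype V] (G : SimpleGraph V)
    -- `G` is 5-regular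
    (h5 : ∀ v, (G.neighborSet v).ncard = 5)
    -- `G` has no `{1,4}`-factor
    (hG : ¬ ∃ H ≤ G, ∀ v, (H.neighborSet v).ncard = 1 ∨ (H.neighborSet v).ncard = 4) :
    -- then there are three pairwise disjoint odd sets with three outgoing edges, without a factor,
    -- all of whose proper odd subsets have at least five outgoing edges
    ∃ C : Fin 3 → Set V, (∀ i j, i ≠ j → Disjoint (C i) (C j)) ∧
      ∀ i, Odd (C i).ncard ∧ cut G (C i) = 3 ∧ ¬ FactorOn G (C i) ∧
        ∀ D, D ⊂ C i → Odd D.ncard → 5 ≤ cut G D := by
  by_contra hno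
  apply hG
  apply Pool.Agent.R229.FR.main5 G h5
  intro C₁ C₂ C₃ d12 d13 d23 hC
  have h1 := hC C₁ (by simp)
  have h2 := hC C₂ (by simp)
  have h3 := hC C₃ (by simp)
  apply hno
  refine ⟨![C₁, C₂, C₃], ?_, ?_⟩
  · intro i j hij
    fin_cases i <;> fin_cases j <;>
      first
        | exact absurd rfl hij
        | exact d12
        | exact d13
        | exact d23
        | exact d12.symm
        | exact d13.symm
        | exact d23.symm
  · intro i
    fin_cases i
    · exact ⟨h1.1.1, h1.1.2.1, h1.1.2.2, h1.2⟩
    · exact ⟨h2.1.1, h2.1.2.1, h2.1.2.2, h2.2⟩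
    · exact ⟨h3.1.1, h3.1.2.1, h3.1.2.2, h3.2⟩

end Pool.Agent.Results.MP_39c6f6_co.ThreeCriticalBadSets
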